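import Pool.Agent.N912.LB.Stm
import Pool.Agent.N736.LC.Core1

/-!
# Project LB, task CORE1B (helper296): the ideals attached to the factorisations, windows bounded away
from `0`; a port of `Pool.Agent.N736.LC.Core1`
-/

set_option autoImplicit false

namespace Pool.Agent.N296.LB

open Finset Filter
open Pool.Agent.W78.GA (Qd nm prim dt ip lat ball pball nm_cast nm_mul nm_eq_zero mem_ball
  nm_mod_lat nm_pos nm_one one_le_nm)
open Pool.Agent.W251.GX (Cm)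
open Pool.Agent.N912.EP.W78EG
open Pool.Agent.N912.LC Pool.Agent.N426.LC Pool.Agent.N736.LC
open Pool.Agent.N912.LB

variable {t c : ℤ}

theorem fi_ne {N : ℕ} {F : Ideal (Qd t c) → ℂ} (hF : CMI N F) {I : Ideal (Qd t c)} (hI : I ≠ ⊥) :
    F I ≠ 0 := by
  intro h
  have h1 := hF.pow I hI
  rw [h, zero_pow (by have := hF.pos; omega)] at h1
  exact zero_ne_one h1

theorem mul_ne' (hD : t ^ 2 < 4 * c) {z w : Qd t c} (hz : z ≠ 0) (hw : w ≠ 0) : z * w ≠ 0 := by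
  intro h
  have h1 : nm (z * w) = 0 := (nm_eq_zero hD).2 h
  rw [nm_mul, Nat.mul_eq_zero] at h1
  rcases h1 with h1 | h1
  · exact hz ((nm_eq_zero hD).1 h1)
  · exact hw ((nm_eq_zero hD).1 h1)

theorem span_ne {z : Qd t c} (hz : z ≠ 0) : Ideal.span {z} ≠ ⊥ := by
  rwa [Ne, Ideal.span_singleton_eq_bot]

theorem cm_el (hD : t ^ 2 < 4 * c) {N : ℕ} {F : Ideal (Qd t c) → ℂ} (hF : CMI N F) :
    Cm N (fun v : Qd t c => el F (star v)) := by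
  refine ⟨hF.pos, ?_, ?_⟩
  · intro z w hz hw
    have h1 : star z ≠ 0 := fun h => hz (star_eq_zero.1 h)
    have h2 : star w ≠ 0 := fun h => hw (star_eq_zero.1 h)
    have h3 : star (z * w) ≠ 0 := fun h => mul_ne' hD hz hw (star_eq_zero.1 h)
    show el F (star (z * w)) = el F (star z) * el F (star w)
    unfold el
    rw [if_neg h3, if_neg h1, if_neg h2, ← hF.mul _ _ (span_ne h1) (span_ne h2),
      Ideal.span_singleton_mul_span_singleton, star_mul']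
  · intro z
    show el F (star z) ^ N = 1
    unfold el
    split_ifs with h
    · exact one_pow _
    · exact hF.pow _ (span_ne h)

open scoped Classical in
/-- the function which is summed -/
noncomputable def GB (t c : ℤ) (q : ℕ) (F₁ F₂ : Ideal (Qd t c) → ℂ) (s₁ s₂ s₃ s₄ : ℝ)
    (a r r' : ℤ) (X : ℝ) (d e n : ℕ) : ℂ :=
  if (s₁ * X < (d : ℝ) ∧ (d : ℝ) ≤ s₂ * X ∧ s₃ * X < (e : ℝ) ∧ (e : ℝ) ≤ s₄ * X) ∧
    ((q : ℤ) ∣ (d : ℤ) - r ∧ (q : ℤ) ∣ (e : ℤ) - r' ∧ (q : ℤ) ∣ (n : ℤ) - a) then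
    F₁ (i1 t c d n) * F₂ (i1 t c e n) else 0

theorem agl_eqB (hD : t ^ 2 < 4 * c) (ht : t = 0 ∨ t = 1) {q m N : ℕ} {r₀ : ℤ}
    (hI : Iv t c m r₀) {F₁ F₂ : Ideal (Qd t c) → ℂ} (h1 : CMI N F₁) (h2 : CMI N F₂)
    {I I' : Ideal (Qd t c)} (hi : I ≠ ⊥) (hi' : I' ≠ ⊥)
    (hB : ∀ (X : ℝ), ∀ e ∈ DL t c m r₀ X, 0 < pp e.1 e.2 →
      I' * i1 t c (nm e.1 / m) (ip e.1 e.2 / m).toNat = Ideal.span {star e.1} ∧
      I * i1 t c (nm e.2 / m) (ip e.1 e.2 / m).toNat = Ideal.span {e.2})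
    (s₁ s₂ s₃ s₄ : ℝ) (a r r' : ℤ) (X : ℝ) :
    ∑ e ∈ (DL t c m r₀ X).filter (fun e => 0 < pp e.1 e.2),
      GB t c q F₁ F₂ s₁ s₂ s₃ s₄ a r r' X (nm e.1 / m) (nm e.2 / m) (ip e.1 e.2 / m).toNat =
      ((F₁ I')⁻¹ * (F₂ I)⁻¹) * AGL (t := t) (c := c) m r₀
        (g2 (fun v => el F₁ (star v)) (el F₂) (RR q 1 m t a r r')) s₁ s₂ s₃ s₄ X := by
  classical
  have hm0 : 0 < m := hI.pos
  have hmR : (0 : ℝ) < m := by exact_mod_cast hm0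
  have hmZ : (m : ℤ) ≠ 0 := by exact_mod_cast hm0.ne'
  have win : ∀ (s : ℝ) (x : ℕ), s * (m * X) < ((m * x : ℕ) : ℝ) ↔ s * X < (x : ℝ) := by
    intro s x
    push_cast
    have e1 : s * (m * X) = m * (s * X) := by ring
    rw [e1, mul_lt_mul_iff_right₀ hmR]
  unfold AGL
  rw [Finset.mul_sum, Finset.sum_filter, Finset.sum_filter]
  refine Finset.sum_congr rfl fun e he => ?_
  have he' := he
  unfold DL at he
  rw [mem_filter, mem_product, mem_ball hD, mem_ball hD] at he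
  obtain ⟨⟨⟨n1, -⟩, ⟨n2, -⟩⟩, l1, l2, hdt⟩ := he
  by_cases hp : 0 < pp e.1 e.2
  swap
  · rw [if_neg hp, if_neg (fun hc => hp hc.1)]
  rw [if_pos hp]
  obtain ⟨B1, B2⟩ := hB X e he' hp
  obtain ⟨x, hx⟩ := nm_mod_lat hD hI.dvd l1
  obtain ⟨y, hy⟩ := nm_mod_lat hD hI.dvd l2
  obtain ⟨z, hz⟩ := dvd_ip hI.dvd l1 l2
  have hpos : 1 ≤ 2 * z + t := by
    unfold pp at hp
    rw [hz, hdt] at hp
    have h5 : 0 < (m : ℤ) * (2 * z + t) := by linarith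
    have h6 : 0 < 2 * z + t := (mul_pos_iff_of_pos_left (by exact_mod_cast hm0)).1 h5
    omega
  have hz0 : 0 ≤ z := by omega
  have q1 : nm e.1 / m = x := by rw [hx, Nat.mul_div_cancel_left _ hm0]
  have q2 : nm e.2 / m = y := by rw [hy, Nat.mul_div_cancel_left _ hm0]
  have q3 : ip e.1 e.2 / m = z := by rw [hz, Int.mul_ediv_cancel_left _ hmZ]
  have cz : (q : ℤ) ∣ ((z.toNat : ℕ) : ℤ) - a ↔
      ((2 * q : ℕ) : ℤ) ∣ ((1 : ℕ) : ℤ) * (2 * z + t) - t - 2 * a := by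
    rw [Int.toNat_of_nonneg hz0]
    have e1 : ((1 : ℕ) : ℤ) * (2 * z + t) - t - 2 * a = 2 * (z - a) := by push_cast; ring
    rw [e1]
    push_cast
    exact (mul_dvd_mul_iff_left (by norm_num : (2 : ℤ) ≠ 0)).symm
  have w1 := win s₁ x
  have w2 := win s₂ x
  have w3 := win s₃ y
  have w4 := win s₄ y
  rw [← hx] at w1 w2
  rw [← hy] at w3 w4
  have w2' : ((nm e.1 : ℕ) : ℝ) ≤ s₂ * (m * X) ↔ (x : ℝ) ≤ s₂ * X := by
    rw [← not_lt, w2, not_lt]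
  have w4' : ((nm e.2 : ℕ) : ℝ) ≤ s₄ * (m * X) ↔ (y : ℝ) ≤ s₄ * X := by
    rw [← not_lt, w4, not_lt]
  rw [q1, q3] at B1
  rw [q2, q3] at B2
  have z1 : e.1 ≠ 0 := fun h => by
    have := (nm_eq_zero hD).2 h
    omega
  have z2 : e.2 ≠ 0 := fun h => by
    have := (nm_eq_zero hD).2 h
    omega
  have z1' : star e.1 ≠ 0 := fun h => z1 (star_eq_zero.1 h)
  have j1 : i1 t c x z.toNat ≠ ⊥ := by
    intro h
    rw [h, Ideal.mul_bot] at B1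
    exact span_ne z1' B1.symm
  have j2 : i1 t c y z.toNat ≠ ⊥ := by
    intro h
    rw [h, Ideal.mul_bot] at B2
    exact span_ne z2 B2.symm
  unfold GB g2 RR
  rw [q1, q2, q3]
  simp only [w1, w2', w3, w4', hp, true_and]
  by_cases hP : s₁ * X < (x : ℝ) ∧ (x : ℝ) ≤ s₂ * X ∧ s₃ * X < (y : ℝ) ∧ (y : ℝ) ≤ s₄ * X
  swap
  · rw [if_neg (fun hc => hP hc.1), if_neg hP]
  rw [if_pos hP, one_mul, one_mul]
  by_cases hC : (q : ℤ) ∣ (x : ℤ) - r ∧ (q : ℤ) ∣ (y : ℤ) - r' ∧ (q : ℤ) ∣ ((z.toNat : ℕ) : ℤ) - a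
  swap
  · rw [if_neg (fun hc => hC hc.2), if_neg (fun hc => hC ⟨hc.1, hc.2.1, cz.2 hc.2.2⟩), mul_zero]
  rw [if_pos ⟨hP, hC⟩, if_pos ⟨hC.1, hC.2.1, cz.1 hC.2.2⟩]
  unfold el
  rw [if_neg z1', if_neg z2, ← B1, ← B2, h1.mul _ _ hi' j1, h2.mul _ _ hi j2]
  have y1 := fi_ne h1 hi'
  have y2 := fi_ne h2 hi
  field_simp

/-- CORE1B -/
theorem core1b (hm : ∀ t c : ℤ, (t = 0 ∨ t = 1) → t ^ 2 < 4 * c → Pool.Agent.N912.LC.S_MC t c)
    (h6a : Pool.Agent.N912.LC.S_LC6a) (hb1 : S_B1) (hb6 : S_B6) : S_CORE1B := by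
  classical
  intro t c ht hD hIC N F₁ F₂ hg hh hap q hq w s₁ s₂ s₃ s₄ p1 p12 p2 p3 p34 p4
  change Sml (fun X : ℕ => ∑ y ∈ TW t c s₁ s₂ s₃ s₄ X,
    w y.2.2 y.1 y.2.1 * (F₁ (i1 t c y.1 y.2.2) * F₂ (i1 t c y.2.1 y.2.2)))
  have : NeZero q := ⟨by omega⟩
  -- one class of residues
  have key : ∀ a r r' : ℤ, Sml (fun X : ℕ => ∑ y ∈ TP t c X,
      GB t c q F₁ F₂ s₁ s₂ s₃ s₄ a r r' X y.1 y.2.1 y.2.2) := by
    intro a r r'
    obtain ⟨M, hM, hMC⟩ := hm t c ht hD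
    obtain ⟨W', hW', hsum'⟩ := h6a t c ht hD M hM
    have huc : (uc t c : ℂ) ≠ 0 := by
      have h5 : (1 : Qd t c) ∈ ball t c 1 := by
        rw [mem_ball hD, nm_one]
        norm_num
      have h6 : 0 < uc t c := Finset.card_pos.2 ⟨1, h5⟩
      exact_mod_cast h6.ne'
    have e2 : ∀ X : ℕ, 1 ≤ X → ∑ y ∈ TP t c X,
          GB t c q F₁ F₂ s₁ s₂ s₃ s₄ a r r' X y.1 y.2.1 y.2.2 =
        (uc t c : ℂ)⁻¹ * ∑ x ∈ W', ∑ e ∈ (DL t c x.1 x.2 (X : ℝ)).filter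
          (fun e => 0 < pp e.1 e.2), GB t c q F₁ F₂ s₁ s₂ s₃ s₄ a r r' X
            (nm e.1 / x.1) (nm e.2 / x.1) (ip e.1 e.2 / x.1).toNat := by
      intro X _
      have h5 := hsum' (X : ℝ) (fun d e n => GB t c q F₁ F₂ s₁ s₂ s₃ s₄ a r r' X d e n)
      rw [h5, inv_mul_cancel_left₀ huc, hb6 t c ht hD hIC X]
    refine Sml.congr (Sml.smul (Sml.sum W' _ ?_) _) e2
    rintro ⟨m, r₀⟩ hx
    obtain ⟨hI, hcop⟩ := hW' _ hx
    dsimp only at hI hcop ⊢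
    obtain ⟨I, I', hi, hi', hB⟩ := hb1 t c ht hD m r₀ hI
    have hrel := rel_RR hD (γ := 1) (q := q) hI t a r r'
    have h6 : Sml (fun X : ℕ => AGL (t := t) (c := c) m r₀
        (g2 (fun v => el F₁ (star v)) (el F₂) (RR q 1 m t a r r')) s₁ s₂ s₃ s₄ X) :=
      hMC m r₀ hI hcop N (fun v => el F₁ (star v)) (el F₂) (cm_el hD hg) hap (2 * q) (by omega) _ _
        hrel s₁ s₂ s₃ s₄ p1 p12 p2 p3 p34 p4
    refine Sml.congr (h6.smul ((F₁ I')⁻¹ * (F₂ I)⁻¹)) fun X _ => ?_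
    exact agl_eqB hD ht hI hg hh hi hi' hB s₁ s₂ s₃ s₄ a r r' X
  -- all classes
  have e3 : ∀ X : ℕ, 1 ≤ X → ∑ y ∈ TW t c s₁ s₂ s₃ s₄ X,
      w y.2.2 y.1 y.2.1 * (F₁ (i1 t c y.1 y.2.2) * F₂ (i1 t c y.2.1 y.2.2)) =
      ∑ u : ZMod q × ZMod q × ZMod q, w u.1 u.2.1 u.2.2 * ∑ y ∈ TP t c X,
        GB t c q F₁ F₂ s₁ s₂ s₃ s₄ (u.1.val : ℤ) (u.2.1.val : ℤ) (u.2.2.val : ℤ) X
          y.1 y.2.1 y.2.2 := by
    intro X _
    have hz : ∀ (n : ℕ) (u : ZMod q), (q : ℤ) ∣ (n : ℤ) - (u.val : ℤ) ↔ u = (n : ZMod q) := by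
      intro n u
      rw [← ZMod.intCast_zmod_eq_zero_iff_dvd]
      push_cast
      rw [ZMod.natCast_zmod_val, sub_eq_zero, eq_comm]
    unfold TW
    rw [Finset.sum_filter]
    simp_rw [Finset.mul_sum]
    rw [Finset.sum_comm]
    refine Finset.sum_congr rfl fun y _ => ?_
    rw [Finset.sum_eq_single ((y.2.2 : ZMod q), (y.1 : ZMod q), (y.2.1 : ZMod q))]
    · unfold GB
      simp only [hz, and_self, and_true]
      split_ifs <;> simp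
    · intro u _ hu
      unfold GB
      rw [if_neg, mul_zero]
      rintro ⟨-, c1, c2, c3⟩
      rw [hz] at c1 c2 c3
      exact hu (by rw [← c1, ← c2, ← c3])
    · intro hn
      exact absurd (mem_univ _) hn
  refine Sml.congr (Sml.sum univ _ fun u _ => ?_) e3
  exact (key _ _ _).smul _

end Pool.Agent.N296.LB
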